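import Mathlib

set_option autoImplicit false
open Filter Topology MeasureTheory Set

namespace Pool.Agent.H.MP_ebdc6e_an

abbrev O := Fin 8 × Bool

noncomputable def P : Measure O := (1 / 16 : ENNReal) • Measure.count

lemma P_prob : IsProbabilityMeasure P := ⟨by
  simp only [P, Measure.smul_apply, Measure.count_univ, smul_eq_mul]
  norm_num
  exact ENNReal.inv_mul_cancel (by norm_num) (by norm_num)⟩

lemma P_int (g : O → ℝ) : ∫ ω, g ω ∂P = (∑ ω, g ω) / 16 := by
  rw [P, integral_smul_measure, integral_count]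
  simp [div_eq_inv_mul]

def Y (ω : O) : Fin 2 → Bool := ![decide (ω.1 < 3 ∨ ω.1 = 4), ω.2]

noncomputable def X (t : ℕ) (ω : O) : Fin 2 → ℝ :=
  if t = 0 then 0 else if t = 1 then ![if ω.1 < 4 then 1 / 2 else -1 / 2, 0]
  else if t = 2 then
    (if ω.1 < 4 then ![1 / 2, if ω.2 then 1 else -1] else ![if ω.1 = 4 then 1 else -1, 0])
  else fun i => if Y ω i then 1 else -1

lemma hX (t : ℕ) : StronglyMeasurable (X t) := StronglyMeasurable.of_discrete

def tau (ω : O) : ℕ := if (ω.1 < 4 ∧ ω.2 = false) ∨ 4 < ω.1 then 2 else 3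

lemma sat {i : ℕ} {s : Set O} (hs : MeasurableSet[Filtration.natural X hX i] s) (a b : O)
    (h : ∀ j ≤ i, X j a = X j b) : a ∈ s ↔ b ∈ s := by
  let M : MeasurableSpace O :=
    { MeasurableSet' := fun s => a ∈ s ↔ b ∈ s
      measurableSet_empty := Iff.rfl
      measurableSet_compl := fun s h => not_congr h
      measurableSet_iUnion := fun f h => by simp only [mem_iUnion, h] }
  have : Filtration.natural X hX i ≤ M := iSup₂_le fun j hj s ⟨t, _, e⟩ => by
    show a ∈ s ↔ b ∈ s
    rw [← e, mem_preimage, mem_preimage, h j hj]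
  exact this s hs

def rep (i : ℕ) (ω : O) : O :=
  if i = 0 then (0, true) else if i = 1 then (if ω.1 < 4 then (0, true) else (4, true))
  else if ω.1 < 4 then (0, ω.2) else if ω.1 = 4 then (4, true) else (5, true)

lemma rep_eq {i : ℕ} (hi : i ≤ 2) (ω : O) : ∀ j ≤ i, X j ω = X j (rep i ω) := by
  intro j hj
  obtain ⟨a, b⟩ := ω
  interval_cases i <;> interval_cases j <;> fin_cases a <;> simp [X, rep]

lemma mart (S : Finset (Fin 2)) :
    Martingale (fun t ω => ∏ i ∈ S, X t ω i) (Filtration.natural X hX) P := by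
  have := P_prob
  refine martingale_of_setIntegral_eq_succ (fun t => ?_) (fun _ => Integrable.of_finite)
    fun i s hs => ?_
  · exact (show Continuous fun v : Fin 2 → ℝ => ∏ i ∈ S, v i by fun_prop).comp_stronglyMeasurable
      (Filtration.stronglyAdapted_natural hX t)
  by_cases hi : i ≤ 2
  · rw [← integral_indicator MeasurableSet.of_discrete,
      ← integral_indicator MeasurableSet.of_discrete, P_int, P_int]
    have h : ∀ (g : O → ℝ) ω, s.indicator g ω = s.indicator 1 (rep i ω) * g ω := by
      intro g ω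
      have := sat hs ω _ (rep_eq hi ω)
      by_cases h : ω ∈ s
      · simp [h, this.1 h]
      · simp [h, mt this.2 h]
    rw [Finset.sum_congr rfl fun ω _ => h _ ω, Finset.sum_congr rfl fun ω _ => h
      (fun ω => ∏ j ∈ S, X (i + 1) ω j) ω]
    generalize s.indicator (1 : O → ℝ) = c
    congr 1
    fin_cases S <;> interval_cases i <;>
      simp [Fintype.sum_prod_type, Fin.sum_univ_eight, X, Y, rep] <;> ring
  · congr 1
    ext ω
    simp only [X, show i ≠ 0 by omega, show i ≠ 1 by omega, show i ≠ 2 by omega,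
      show i + 1 ≠ 0 by omega, show i + 1 ≠ 1 by omega, show i + 1 ≠ 2 by omega, if_false]

lemma stop : IsStoppingTime (Filtration.natural X hX) fun ω => (tau ω : WithTop ℕ) := by
  intro i
  by_cases h : i = 2
  · subst h
    have : {ω | ((tau ω : ℕ) : WithTop ℕ) ≤ (2 : ℕ)} = X 2 ⁻¹' {v | v 0 = -1 ∨ v 1 = -1} := by
      ext ⟨a, b⟩
      simp only [mem_ofPred_eq, mem_preimage, Nat.cast_le]
      fin_cases a <;> cases b <;> simp [X, tau] <;> norm_num
    erw [this]
    refine (Filtration.stronglyAdapted_natural hX 2).measurable ?_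
    exact (measurableSet_eq_fun (by fun_prop) measurable_const).union
      (measurableSet_eq_fun (by fun_prop) measurable_const)
  · have : ∀ ω, ((tau ω : ℕ) : WithTop ℕ) ≤ (i : ℕ) ↔ 3 ≤ i := fun ω => by
      rw [Nat.cast_le, tau]; split_ifs <;> omega
    erw [Set.ext (b := {_ω | 3 ≤ i}) this]
    exact MeasurableSet.const _

end Pool.Agent.H.MP_ebdc6e_an
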